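import Pool.Agent.E8helper11.GS.Stm2

/-!
# Project GS: pieces HITSd and HITS
-/

set_option autoImplicit false

open Filter Topology
open scoped Classical

namespace Pool.Agent.E8helper62.GS

open Pool.Agent.E8helper11.GS
open N0ef6d136

theorem lam_nonneg (m : ℕ → ℕ) (k : ℕ) : 0 ≤ lam m k := by
  unfold lam
  positivity

/-- the product over the hits -/
theorem prod_le {m u : ℕ → ℕ} {B : ℕ → Finset ℕ} (hu : StrictMono u) (hBC : ∀ k, B k ⊆ Cb k)
    (hpos : Pos m u) (hpot : Pot m B) {j a : ℕ} (hj : 1 ≤ j) (ha : a < 4 ^ j) {H : Finset ℕ}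
    (hH : ∀ i ∈ H, j ≤ i ^ 2 ∧ Hit j a (u i)) (kk : ℕ → ℕ) (hkk : ∀ i, u i ∈ B (kk i)) :
    ∏ i ∈ H, (1 + lam m (kk i)) ≤ 15 * (4 : ℝ) ^ j * (j : ℝ) ^ 2 := by
  have hmaps : ∀ i ∈ H, kk i ∈ Finset.range (H.sup kk + 1) := by
    intro i hi
    rw [Finset.mem_range]
    exact Nat.lt_succ_of_le (Finset.le_sup (f := kk) hi)
  refine le_trans ?_ (hpot j a (H.sup kk + 1) hj ha)
  rw [← Finset.prod_fiberwise_of_maps_to hmaps]
  refine Finset.prod_le_prod (fun k _ => Finset.prod_nonneg fun i _ => ?_) ?_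
  · have := lam_nonneg m (kk i)
    linarith
  intro k hk
  have h1 : ∏ i ∈ H with kk i = k, (1 + lam m (kk i)) =
      (1 + lam m k) ^ (Finset.card {i ∈ H | kk i = k}) := by
    rw [← Finset.prod_const]
    refine Finset.prod_congr rfl fun i hi => ?_
    rw [(Finset.mem_filter.1 hi).2]
  rw [h1]
  have hl := lam_nonneg m k
  rcases Finset.eq_empty_or_nonempty {i ∈ H | kk i = k} with h0 | ⟨i, hi⟩
  · rw [h0, Finset.card_empty, pow_zero]
    split_ifs
    · exact one_le_pow₀ (by linarith)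
    · exact le_rfl
  · rw [Finset.mem_filter] at hi
    have h2 : j < (Ms m (k + 1)) ^ 2 := by
      have h3 : u i < 4 ^ (k + 1) := by
        have h6 := hBC _ (hkk i)
        unfold Cb at h6
        rw [Finset.mem_filter, Finset.mem_Ico, hi.2] at h6
        exact h6.1.2
      have h4 := (hpos i (k + 1)).1 h3
      have h5 := (hH i hi.1).1
      exact lt_of_le_of_lt h5 (Nat.pow_lt_pow_left h4 (by norm_num))
    rw [if_pos h2]
    refine pow_le_pow_right₀ (by linarith) ?_
    refine Finset.card_le_card_of_injOn u ?_ hu.injective.injOn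
    intro i' hi'
    rw [Finset.mem_coe, Finset.mem_filter] at hi'
    rw [Finset.mem_coe, Finset.mem_filter]
    exact ⟨hi'.2 ▸ hkk i', (hH i' hi'.1).2⟩

theorem t_HITSd : S_HITSd := by
  intro hcnt hreg m u B δ hδ hδ1 hu hu2 hBC hmem hpos hlo hpot hlam hHT
  choose kk hkk using hmem
  obtain ⟨k1, hk1⟩ := eventually_atTop.1 hlam
  have hlog4 : 0 < Real.log 4 := Real.log_pos (by norm_num)
  have e1 : ∀ᶠ j : ℕ in atTop, Real.log 15 + j * Real.log 4 + 2 * Real.log j ≤
      (1 + δ) * (j * Real.log 4) := by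
    have h1 := (Real.isLittleO_log_id_atTop.def (show 0 < δ * Real.log 4 / 4 by positivity))
    have h2 := tendsto_natCast_atTop_atTop (R := ℝ) |>.eventually h1
    have h3 := tendsto_natCast_atTop_atTop (R := ℝ) |>.eventually_ge_atTop
      (Real.log 15 / (δ * Real.log 4 / 2))
    filter_upwards [h2, h3] with j h4 h5
    rw [div_le_iff₀ (by positivity)] at h5
    simp only [id, Real.norm_eq_abs, Nat.abs_cast] at h4
    have h6 := (abs_le.1 h4).2
    nlinarith
  have e2 : ∀ᶠ j : ℕ in atTop, (1 + δ) * (j : ℝ) ≤ (1 - 8 * δ) * ((1 + 11 * δ) * (j - 1)) := by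
    filter_upwards [tendsto_natCast_atTop_atTop (R := ℝ) |>.eventually_ge_atTop (3 / δ),
      eventually_ge_atTop 1] with j h5 h6
    rw [div_le_iff₀ hδ] at h5
    have h7 : (1 : ℝ) ≤ j := by exact_mod_cast h6
    have h8 : 88 * δ ^ 2 ≤ 0.88 * δ := by nlinarith
    have h9 : 0 ≤ (0.88 * δ - 88 * δ ^ 2) * ((j : ℝ) - 1) := mul_nonneg (by linarith) (by linarith)
    nlinarith
  have e3 : ∀ᶠ j : ℕ in atTop, 4 ^ (2 * k1) ≤ j := eventually_ge_atTop _
  filter_upwards [e1, e2, e3, hHT ((1 + 11 * δ) / (9 * δ)), eventually_ge_atTop 1] with j h1 h2 h3 h4 hj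
  intro x hx1 hx2 a ha H hH
  have hj' : (1 : ℝ) ≤ j := by exact_mod_cast hj
  -- the size of `t`
  have ht : (1 + 11 * δ) ≤ (9 * δ) * (t u x : ℝ) := by
    have h5 := h4 x hx1
    have h6 : (1 : ℝ) ≤ Real.sqrt j := Real.one_le_sqrt.2 hj'
    have h7 : (1 + 11 * δ) / (9 * δ) ≤ (1 + 11 * δ) / (9 * δ) * Real.sqrt j :=
      le_mul_of_one_le_right (by positivity) h6
    have h8 := h7.trans h5
    rw [div_le_iff₀ (by positivity)] at h8
    linarith
  -- `x`
  have hx0 : 1 ≤ x := by
    have : 4 ^ 1 ≤ 4 ^ j := Nat.pow_le_pow_right (by norm_num) hj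
    omega
  have hxR : (1 : ℝ) ≤ x := by exact_mod_cast hx0
  have hlx : ((j : ℝ) - 1) * Real.log 4 ≤ Real.log x := by
    have h5 : ((4 : ℝ)) ^ j ≤ 4 * x := by exact_mod_cast hx1
    have h6 := Real.log_le_log (by positivity) h5
    rw [Real.log_pow, Real.log_mul (by norm_num) (by positivity)] at h6
    linarith
  -- the logarithms
  have hbig : ∀ i ∈ H, (1 - 8 * δ) * Real.log (u i) ≤ Real.log (1 + lam m (kk i)) := by
    intro i hi
    have h6 := hBC _ (hkk i)
    unfold Cb at h6
    rw [Finset.mem_filter, Finset.mem_Ico] at h6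
    have h7 : k1 ≤ kk i := by
      by_contra hc
      push Not at hc
      have h8 : u i < 4 ^ k1 := h6.1.2.trans_le (Nat.pow_le_pow_right (by norm_num) hc)
      have h9 : i ≤ u i := hu.le_apply
      have h10 : i ^ 2 < 4 ^ (2 * k1) := by
        rw [mul_comm, pow_mul]
        exact Nat.pow_lt_pow_left (h9.trans_lt h8) (by norm_num)
      have h11 := (hH i hi).1
      omega
    have h8 := hk1 (kk i) h7
    have h9 := Real.log_le_log (by positivity) h8
    rw [Real.log_rpow (by norm_num)] at h9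
    have h10 : Real.log (u i) ≤ ((kk i : ℝ) + 1) * Real.log 4 := by
      have h11 : ((u i : ℕ) : ℝ) ≤ (4 : ℝ) ^ (kk i + 1) := by exact_mod_cast h6.1.2.le
      have h12 : (0 : ℝ) < (u i : ℝ) := by
        have := hu2 i
        exact_mod_cast (by omega : 0 < u i)
      have h13 := Real.log_le_log h12 h11
      rw [Real.log_pow] at h13
      push_cast at h13
      exact h13
    have h14 := mul_le_mul_of_nonneg_left h10 (show (0 : ℝ) ≤ 1 - 8 * δ by linarith)
    linarith
  have hsum : (1 - 8 * δ) * ∑ i ∈ H, Real.log (u i) ≤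
      Real.log 15 + j * Real.log 4 + 2 * Real.log j := by
    have h5 := prod_le hu hBC hpos hpot hj ha hH kk hkk
    have h6 : (0 : ℝ) < ∏ i ∈ H, (1 + lam m (kk i)) :=
      Finset.prod_pos fun i _ => by
        have := lam_nonneg m (kk i)
        linarith
    have h7 := Real.log_le_log h6 h5
    rw [Real.log_prod (fun i _ => by
      have := lam_nonneg m (kk i)
      positivity), Real.log_mul (by positivity) (by positivity),
      Real.log_mul (by norm_num) (by positivity), Real.log_pow, Real.log_pow] at h7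
    rw [Finset.mul_sum]
    refine (Finset.sum_le_sum hbig).trans ?_
    push_cast at h7
    linarith
  have hL : ∑ i ∈ H, Real.log (u i) ≤ (1 + 11 * δ) * Real.log x := by
    have h5 : (1 - 8 * δ) * ∑ i ∈ H, Real.log (u i) ≤
        (1 - 8 * δ) * ((1 + 11 * δ) * (((j : ℝ) - 1) * Real.log 4)) := by
      refine (hsum.trans h1).trans ?_
      have h6 := mul_le_mul_of_nonneg_right h2 hlog4.le
      calc (1 + δ) * (j * Real.log 4) = (1 + δ) * j * Real.log 4 := by ring
        _ ≤ _ := h6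
        _ = _ := by ring
    have h6 := le_of_mul_le_mul_left h5 (by linarith)
    refine h6.trans ?_
    exact mul_le_mul_of_nonneg_left hlx (by linarith)
  have hlog : Real.log ((∏ i ∈ H, u i : ℕ) : ℝ) ≤ (1 + 11 * δ) * Real.log x := by
    rw [Nat.cast_prod, Real.log_prod (fun i _ => by
      have := hu2 i
      have : 0 < u i := by omega
      positivity)]
    exact hL
  have hc : H.card ≤ t u (∏ i ∈ H, u i) := hcnt u hu hu2 H _ le_rfl
  have hr := hreg u hu hu2 x (∏ i ∈ H, u i) (11 * δ) (by linarith) hx0 hlog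
  have hc' : (H.card : ℝ) ≤ (t u (∏ i ∈ H, u i) : ℝ) := by exact_mod_cast hc
  nlinarith

theorem t_HITS : S_HITS := by
  intro hcnt hreg m u B hu hu2 hBC hmem hpos hsub hlo hpot hlam hHT η hη
  set δ : ℝ := min (η / 20) (1 / 100) with hδdef
  have hδ : 0 < δ := by
    rw [hδdef]
    exact lt_min (by linarith) (by norm_num)
  have hδ1 : δ ≤ 1 / 100 := min_le_right _ _
  have hδ2 : 20 * δ ≤ η := by
    have : δ ≤ η / 20 := min_le_left _ _
    linarith
  have h := t_HITSd hcnt hreg m u B δ hδ hδ1 hu hu2 hBC hmem hpos hlo hpot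
    (hlam (8 * δ) (by linarith)) hHT
  unfold HHd at h
  filter_upwards [h] with j hj x hx1 hx2 a ha H hH
  refine (hj x hx1 hx2 a ha H hH).trans ?_
  exact mul_le_mul_of_nonneg_right (by linarith) (Nat.cast_nonneg _)

end Pool.Agent.E8helper62.GS
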